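import Mathlib

/-!
# CV: signs of `f` beyond `1 + M`
-/

set_option autoImplicit false

open Polynomial

namespace Pool.Agent.Helper12.CV

/-- Beyond `1 + M` the sign of `f` is the sign of its leading term. -/
theorem leading_sign (f : ℤ[X]) (hf : f ≠ 0) (M : ℝ) (hM : ∀ i, |((f.coeff i : ℤ) : ℝ)| ≤ M)
    (x : ℝ) (hx : 1 + M < |x|) :
    0 < (f.leadingCoeff : ℝ) * x ^ f.natDegree * aeval x f := by
  have hM0 : 0 ≤ M := (abs_nonneg _).trans (hM 0)
  have hx1 : 1 < |x| := by linarith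
  set d := f.natDegree with hd
  set A : ℝ := (f.leadingCoeff : ℝ) * x ^ d with hA
  set R : ℝ := ∑ i ∈ Finset.range d, (f.coeff i : ℝ) * x ^ i with hR
  have hev : aeval x f = A + R := by
    rw [aeval_eq_sum_range, Finset.sum_range_succ, ← hd, add_comm]
    congr 1
    · rw [hA, hd, coeff_natDegree, zsmul_eq_mul]
    · rw [hR]
      exact Finset.sum_congr rfl fun i _ => by rw [zsmul_eq_mul]
  have hRle : |R| ≤ M * ∑ i ∈ Finset.range d, |x| ^ i := by
    rw [hR, Finset.mul_sum]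
    refine (Finset.abs_sum_le_sum_abs _ _).trans (Finset.sum_le_sum fun i _ => ?_)
    rw [abs_mul, abs_pow]
    exact mul_le_mul_of_nonneg_right (hM i) (by positivity)
  have hgeom : (∑ i ∈ Finset.range d, |x| ^ i) * (|x| - 1) = |x| ^ d - 1 := geom_sum_mul _ _
  have hSnn : 0 ≤ ∑ i ∈ Finset.range d, |x| ^ i := Finset.sum_nonneg fun i _ => by positivity
  have hRlt : |R| < |x| ^ d := by
    have h1 : M * ∑ i ∈ Finset.range d, |x| ^ i ≤ (|x| - 1) * ∑ i ∈ Finset.range d, |x| ^ i :=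
      mul_le_mul_of_nonneg_right (by linarith) hSnn
    linarith
  have hlc : 1 ≤ |(f.leadingCoeff : ℝ)| := by
    have : f.leadingCoeff ≠ 0 := leadingCoeff_ne_zero.mpr hf
    exact_mod_cast Int.one_le_abs this
  have hAge : |x| ^ d ≤ |A| := by
    rw [hA, abs_mul, abs_pow]
    nlinarith [pow_pos (lt_trans one_pos hx1) d]
  rw [hev]
  have h2 : -(|A| * |R|) ≤ A * R := by
    rw [← abs_mul]
    exact neg_abs_le _
  have h3 : A * A = |A| * |A| := (abs_mul_abs_self A).symm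
  have h4 : 0 < |A| := lt_of_lt_of_le (by positivity) hAge
  nlinarith

/-- Real roots are at most `1 + M`. -/
theorem root_le (f : ℤ[X]) (hf : f ≠ 0) (M : ℝ) (hM : ∀ i, |((f.coeff i : ℤ) : ℝ)| ≤ M)
    (r : ℝ) (hr : aeval r f = 0) : |r| ≤ 1 + M := by
  by_contra h
  push Not at h
  have := leading_sign f hf M hM r h
  rw [hr, mul_zero] at this
  exact lt_irrefl _ this

/-- At an integral point beyond `1 + M` (odd degree), `a (x - r) > 0` at all real roots. -/
theorem sign_at_point (f : ℤ[X]) (hf : f ≠ 0) (hodd : Odd f.natDegree) (M : ℝ)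
    (hM : ∀ i, |((f.coeff i : ℤ) : ℝ)| ≤ M) (x y : ℤ) (hxy : y ^ 2 = f.eval x)
    (hx : 1 + M < |(x : ℝ)|) :
    y ≠ 0 ∧ ∀ r : ℝ, aeval r f = 0 → 0 < (f.leadingCoeff : ℝ) * ((x : ℝ) - r) := by
  have h1 := leading_sign f hf M hM x hx
  have h2 : aeval (x : ℝ) f = (y : ℝ) ^ 2 := by
    have : aeval (x : ℝ) f = ((f.eval x : ℤ) : ℝ) := by
      rw [aeval_def, eval₂_eq_eval_map]
      simp
    rw [this, ← hxy]
    push_cast
    rfl
  rw [h2] at h1
  have hy : y ≠ 0 := by
    rintro rfl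
    simp at h1
  refine ⟨hy, fun r hr => ?_⟩
  have hr1 := root_le f hf M hM r hr
  obtain ⟨k, hk⟩ := hodd
  have h3 : 0 < (f.leadingCoeff : ℝ) * x := by
    rw [hk, pow_succ, pow_mul] at h1
    have h4 : (f.leadingCoeff : ℝ) * (((x : ℝ) ^ 2) ^ k * x) * (y : ℝ) ^ 2
        = ((f.leadingCoeff : ℝ) * x) * ((((x : ℝ) ^ 2) ^ k) * (y : ℝ) ^ 2) := by ring
    rw [h4] at h1
    exact pos_of_mul_pos_left h1 (by positivity)
  have h5 : |r| < |(x : ℝ)| := lt_of_le_of_lt hr1 hx
  rcases lt_or_gt_of_ne (show (x : ℝ) ≠ 0 by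
    intro h0
    rw [h0, mul_zero] at h3
    exact lt_irrefl _ h3) with hneg | hpos
  · have ha : (f.leadingCoeff : ℝ) < 0 := by nlinarith
    have : (x : ℝ) - r < 0 := by
      rw [abs_of_neg hneg] at h5
      have := (abs_lt.mp h5).1
      linarith
    exact mul_pos_of_neg_of_neg ha this
  · have ha : 0 < (f.leadingCoeff : ℝ) := by nlinarith
    have : 0 < (x : ℝ) - r := by
      rw [abs_of_pos hpos] at h5
      have := (abs_lt.mp h5).2
      linarith
    exact mul_pos ha this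

end Pool.Agent.Helper12.CV
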