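import Mathlib

/-!
# CV: the curves of hand-in (II) on MP_d88658_nt

`IntegralSelmer f D`: the class of `D ∈ ℚ[X]/(f)` is positive at the real roots of `f` and comes from
a `p`-adic integral point of `y² = f(x)` at every prime `p`.
`SelmerThin f`: every such class becomes a square over a number field of degree `< 2 ^ (d - 1)`.
`OddNarrow f`: the explicit family (`f` monic, a condition on primes, odd narrow class numbers).
-/

set_option autoImplicit false

open Polynomial NumberField

namespace Pool.Agent.Helper12.CV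

/-- `P` is a square in `K[X]/(f)`. -/
def SqMod (K : Type) [Field K] (f : ℤ[X]) (P : K[X]) : Prop :=
  ∃ g : K[X], f.map (Int.castRingHom K) ∣ P - g ^ 2

/-- `a (z - X)`, where `a` is the leading coefficient of `f`. -/
noncomputable def pointClass (K : Type) [Field K] (f : ℤ[X]) (z : K) : K[X] :=
  C (f.leadingCoeff : K) * (C z - X)

/-- `D` is coprime to `f` and positive at the real roots of `f`, and for every prime `p` there are
`p`-adic integers `z` and `w ≠ 0` with `w ^ 2 = f(z)` such that `a (z - X) D` is a square in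
`ℚ_p[X]/(f)`, where `a` is the leading coefficient of `f`. -/
def IntegralSelmer (f : ℤ[X]) (D : ℚ[X]) : Prop :=
  IsCoprime D (f.map (Int.castRingHom ℚ)) ∧
  (∀ r : ℝ, aeval r f = 0 → 0 < aeval r D) ∧
  ∀ (p : ℕ) [Fact p.Prime], ∃ z w : ℤ_[p], w ≠ 0 ∧ w ^ 2 = aeval z f ∧
    SqMod ℚ_[p] f (pointClass ℚ_[p] f z * D.map (algebraMap ℚ ℚ_[p]))

/-- Every class of `IntegralSelmer f` is a square in `K[X]/(f)` for some number field `K` of degree
less than `2 ^ (d - 1)`, where `d` is the degree of `f`. -/
def SelmerThin (f : ℤ[X]) : Prop :=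
  ∀ D : ℚ[X], IntegralSelmer f D →
    ∃ (K : Type) (_ : Field K) (_ : NumberField K),
      Module.finrank ℚ K < 2 ^ (f.natDegree - 1) ∧ SqMod K f (D.map (algebraMap ℚ K))

/-- `f` is monic, there are no prime `p` and integer `m` with `p ^ 2 ∣ f(m)` and `p ∣ f'(m)`, and
every number field generated by one root of `f` has odd class number and its totally positive units
are squares. -/
def OddNarrow (f : ℤ[X]) : Prop :=
  f.Monic ∧
  (∀ (p : ℕ) (m : ℤ), p.Prime → ((p : ℤ) ^ 2 ∣ f.eval m) → ¬ ((p : ℤ) ∣ f.derivative.eval m)) ∧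
  ∀ (K : Type) [Field K] [NumberField K] (θ : K), aeval θ f = 0 →
    IntermediateField.adjoin ℚ {θ} = ⊤ →
      Odd (classNumber K) ∧
      ∀ u : (𝓞 K)ˣ, (∀ φ : K →+* ℝ, 0 < φ ((u : 𝓞 K) : K)) → IsSquare u

end Pool.Agent.Helper12.CV
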