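import Mathlib

/-!
# CV: from `p`-adic data to integer data

If `f` is monic and `f ∣ (z - X) Δ - G²` in `ℚ_p[X]` with `z ∈ ℤ_p`, `Δ ∈ ℤ[X]`, then for some `k` and all
`N` there are an integer `z₀ ≡ z mod p^N` and integer polynomials with
`p^(2k) (z₀ - X) Δ = G₀² + f H₀ + p^N E₀`.
-/

set_option autoImplicit false

open Polynomial

namespace Pool.Agent.Helper12.CV

theorem padicPoly_clear (p : ℕ) [Fact p.Prime] (G : ℚ_[p][X]) :
    ∃ (k : ℕ) (G₁ : ℤ_[p][X]), G₁.map (algebraMap ℤ_[p] ℚ_[p]) = C ((p : ℚ_[p]) ^ k) * G := by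
  induction G using Polynomial.induction_on' with
  | add P Q hP hQ =>
    obtain ⟨k₁, G₁, h₁⟩ := hP
    obtain ⟨k₂, G₂, h₂⟩ := hQ
    refine ⟨k₁ + k₂, C ((p : ℤ_[p]) ^ k₂) * G₁ + C ((p : ℤ_[p]) ^ k₁) * G₂, ?_⟩
    have e : ∀ j : ℕ, algebraMap ℤ_[p] ℚ_[p] ((p : ℤ_[p]) ^ j) = (p : ℚ_[p]) ^ j := by
      intro j
      rw [map_pow, map_natCast]
    rw [Polynomial.map_add, Polynomial.map_mul, Polynomial.map_mul, Polynomial.map_C,
      Polynomial.map_C, h₁, h₂, e, e, pow_add, C_mul]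
    ring
  | monomial n c =>
    have hp1 : (1 : ℝ) < p := by exact_mod_cast (Fact.out : p.Prime).one_lt
    obtain ⟨k, hk⟩ := pow_unbounded_of_one_lt ‖c‖ hp1
    have hn : ‖(p : ℚ_[p]) ^ k * c‖ ≤ 1 := by
      rw [norm_mul, norm_pow, Padic.norm_p, inv_pow]
      rw [inv_mul_le_iff₀ (by positivity), mul_one]
      exact hk.le
    let c' : ℤ_[p] := ⟨(p : ℚ_[p]) ^ k * c, hn⟩
    have hc' : algebraMap ℤ_[p] ℚ_[p] c' = (p : ℚ_[p]) ^ k * c := rfl
    refine ⟨k, monomial n c', ?_⟩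
    rw [Polynomial.map_monomial, C_mul_monomial, hc']

theorem lift_data (p : ℕ) [Fact p.Prime] (f Δ : ℤ[X]) (hm : f.Monic) (z : ℤ_[p]) (G : ℚ_[p][X])
    (h : f.map (Int.castRingHom ℚ_[p]) ∣
      (C (z : ℚ_[p]) - X) * Δ.map (Int.castRingHom ℚ_[p]) - G ^ 2) :
    ∃ k : ℕ, ∀ N : ℕ, ∃ (z₀ : ℤ) (G₀ H₀ E₀ : ℤ[X]),
      (z - (z₀ : ℤ_[p])) ∈ Ideal.span {((p : ℤ_[p])) ^ N} ∧
      C ((p : ℤ) ^ (2 * k)) * (C z₀ - X) * Δ = G₀ ^ 2 + f * H₀ + C ((p : ℤ) ^ N) * E₀ := by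
  obtain ⟨k, G₁, hG₁⟩ := padicPoly_clear p G
  have hinj : Function.Injective (algebraMap ℤ_[p] ℚ_[p]) := IsFractionRing.injective ℤ_[p] ℚ_[p]
  have hfm : (f.map (Int.castRingHom ℤ_[p])).Monic := hm.map _
  -- divisibility over `ℤ_p`
  have h1 : f.map (Int.castRingHom ℤ_[p]) ∣
      C ((p : ℤ_[p]) ^ (2 * k)) * ((C z - X) * Δ.map (Int.castRingHom ℤ_[p])) - G₁ ^ 2 := by
    rw [← Polynomial.map_dvd_map _ hinj hfm]
    have e1 : ∀ P : ℤ[X], (P.map (Int.castRingHom ℤ_[p])).map (algebraMap ℤ_[p] ℚ_[p])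
        = P.map (Int.castRingHom ℚ_[p]) := by
      intro P
      rw [Polynomial.map_map]
      congr 1
    rw [Polynomial.map_sub, Polynomial.map_mul, Polynomial.map_mul, Polynomial.map_sub,
      Polynomial.map_pow, hG₁, Polynomial.map_C, Polynomial.map_C, Polynomial.map_X, e1, e1]
    have e2 : C (algebraMap ℤ_[p] ℚ_[p] ((p : ℤ_[p]) ^ (2 * k)))
          * ((C (algebraMap ℤ_[p] ℚ_[p] z) - X) * Δ.map (Int.castRingHom ℚ_[p]))
          - (C ((p : ℚ_[p]) ^ k) * G) ^ 2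
        = C ((p : ℚ_[p]) ^ (2 * k)) * ((C (z : ℚ_[p]) - X) * Δ.map (Int.castRingHom ℚ_[p]) - G ^ 2) := by
      have e3 : algebraMap ℤ_[p] ℚ_[p] ((p : ℤ_[p]) ^ (2 * k)) = (p : ℚ_[p]) ^ (2 * k) := by
        rw [map_pow, map_natCast]
      rw [e3]
      change C ((p : ℚ_[p]) ^ (2 * k)) * ((C (z : ℚ_[p]) - X) * Δ.map (Int.castRingHom ℚ_[p]))
          - (C ((p : ℚ_[p]) ^ k) * G) ^ 2 = _
      rw [mul_pow, ← C_pow, ← pow_mul, mul_comm k 2]
      ring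
    rw [e2]
    exact h.mul_left _
  obtain ⟨H₁, hH₁⟩ := h1
  refine ⟨k, fun N => ?_⟩
  let π : ℤ_[p] →+* ZMod (p ^ N) := PadicInt.toZModPow N
  have hsurj : Function.Surjective (Int.castRingHom (ZMod (p ^ N))) := ZMod.intCast_surjective
  obtain ⟨G₀, hG₀⟩ := Polynomial.map_surjective _ hsurj (G₁.map π)
  obtain ⟨H₀, hH₀⟩ := Polynomial.map_surjective _ hsurj (H₁.map π)
  have hz : π z = ((PadicInt.appr z N : ℤ) : ZMod (p ^ N)) := by
    have h5 := PadicInt.appr_spec N z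
    rw [← PadicInt.ker_toZModPow, RingHom.mem_ker, map_sub, map_natCast, sub_eq_zero] at h5
    rw [h5]
    push_cast
    rfl
  set z₀ : ℤ := (PadicInt.appr z N : ℤ) with hz₀
  have h2 : (C ((p : ℤ) ^ (2 * k)) * (C z₀ - X) * Δ - G₀ ^ 2 - f * H₀).map
      (Int.castRingHom (ZMod (p ^ N))) = 0 := by
    have e1 : ∀ P : ℤ[X], (P.map (Int.castRingHom ℤ_[p])).map π
        = P.map (Int.castRingHom (ZMod (p ^ N))) := by
      intro P
      rw [Polynomial.map_map]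
      congr 1
      exact RingHom.ext_int _ _
    have h3 := congrArg (Polynomial.map π) hH₁
    rw [Polynomial.map_sub, Polynomial.map_mul, Polynomial.map_mul, Polynomial.map_sub,
      Polynomial.map_pow, Polynomial.map_C, Polynomial.map_C, Polynomial.map_X, e1,
      Polynomial.map_mul, e1, hz, ← hG₀, ← hH₀] at h3
    rw [Polynomial.map_sub, Polynomial.map_sub, Polynomial.map_mul, Polynomial.map_mul,
      Polynomial.map_sub, Polynomial.map_C, Polynomial.map_C, Polynomial.map_X, Polynomial.map_pow,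
      Polynomial.map_mul, ← h3]
    have e2 : π ((p : ℤ_[p]) ^ (2 * k)) = Int.castRingHom (ZMod (p ^ N)) ((p : ℤ) ^ (2 * k)) := by
      simp
    rw [e2]
    simp only [eq_intCast]
    ring
  have h4 : C ((p : ℤ) ^ N) ∣ C ((p : ℤ) ^ (2 * k)) * (C z₀ - X) * Δ - G₀ ^ 2 - f * H₀ := by
    rw [Polynomial.C_dvd_iff_dvd_coeff]
    intro i
    have h5 := congrArg (fun P => Polynomial.coeff P i) h2
    simp only [coeff_map, coeff_zero] at h5
    have h6 : (((C ((p : ℤ) ^ (2 * k)) * (C z₀ - X) * Δ - G₀ ^ 2 - f * H₀).coeff i : ℤ) :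
        ZMod (p ^ N)) = 0 := h5
    rw [ZMod.intCast_zmod_eq_zero_iff_dvd] at h6
    exact_mod_cast h6
  obtain ⟨E₀, hE₀⟩ := h4
  refine ⟨z₀, G₀, H₀, E₀, ?_, ?_⟩
  · have := PadicInt.appr_spec N z
    simpa [hz₀] using this
  · rw [← hE₀]
    ring

end Pool.Agent.Helper12.CV
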