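import Pool.Agent.Helper12.CV.Defs

/-!
# CV: the local step

`v` a prime of a Dedekind domain containing the prime number `p`. If `p^(2k) B A = s² + p^N E` with `N`
large and `v(B)` a square, then `v(A)` is a square. `B = z - θ` where `f(θ) = 0`, `v_p(f(z))` is even and
`p ∤ f'(z)` if `p² ∣ f(z)`: then `v(B)` is a square.
-/

set_option autoImplicit false

open Polynomial NumberField IsDedekindDomain

namespace Pool.Agent.Helper12.CV

variable {R : Type} [CommRing R] [IsDedekindDomain R]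

/-- `v(A)` is a square. -/
theorem local_isSquare (v : HeightOneSpectrum R) (P A B s E : R) (k N : ℕ) (hP : P ≠ 0)
    (hB : B ≠ 0) (h : P ^ (2 * k) * B * A = s ^ 2 + P ^ N * E)
    (hN : v.intValuation (P ^ N) < v.intValuation (P ^ (2 * k) * B * A))
    (hBsq : ∃ γ, v.intValuation B = γ ^ 2) : ∃ γ, v.intValuation A = γ ^ 2 := by
  obtain ⟨β, hβ⟩ := hBsq
  have hvB : v.intValuation B ≠ 0 := v.intValuation_ne_zero B hB
  have hβ0 : β ≠ 0 := by
    rintro rfl
    rw [zero_pow two_ne_zero] at hβ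
    exact hvB hβ
  have hvP : v.intValuation P ≠ 0 := v.intValuation_ne_zero P hP
  have h1 : v.intValuation (P ^ N * E) < v.intValuation (P ^ (2 * k) * B * A) := by
    rw [map_mul]
    exact lt_of_le_of_lt (mul_le_of_le_one_right' (v.intValuation_le_one E)) hN
  have h2 : v.intValuation (s ^ 2) = v.intValuation (P ^ (2 * k) * B * A) := by
    have e : s ^ 2 = P ^ (2 * k) * B * A - P ^ N * E := by rw [h]; ring
    rw [e]
    exact Valuation.map_sub_eq_of_lt_left _ h1
  refine ⟨v.intValuation s / (v.intValuation P ^ k * β), ?_⟩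
  have h3 : (v.intValuation P ^ k * β) ^ 2 ≠ 0 :=
    pow_ne_zero _ (mul_ne_zero (pow_ne_zero _ hvP) hβ0)
  have h4 : v.intValuation s ^ 2 = v.intValuation P ^ (2 * k) * β ^ 2 * v.intValuation A := by
    rw [← map_pow, h2, map_mul, map_mul, hβ, map_pow]
  rw [div_pow, eq_div_iff h3, h4, mul_pow, ← pow_mul, mul_comm k 2, mul_comm]

omit [IsDedekindDomain R] in
/-- an integer lies in `v` only if `p` divides it -/
theorem int_mem_iff (v : HeightOneSpectrum R) [CharZero R] (p : ℕ) (hp : p.Prime) (hpv : (p : R) ∈ v.asIdeal) (n : ℤ) :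
    (n : R) ∈ v.asIdeal ↔ (p : ℤ) ∣ n := by
  constructor
  · intro h
    by_contra hnd
    have hc : IsCoprime (p : ℤ) n := (Nat.prime_iff_prime_int.mp hp).coprime_iff_not_dvd.mpr hnd
    obtain ⟨a, b, hab⟩ := hc
    apply v.isPrime.ne_top
    rw [Ideal.eq_top_iff_one]
    have h1 : ((a : R)) * (p : R) + (b : R) * (n : R) = 1 := by
      exact_mod_cast congrArg (Int.cast : ℤ → R) hab
    rw [← h1]
    exact v.asIdeal.add_mem (v.asIdeal.mul_mem_left _ hpv) (v.asIdeal.mul_mem_left _ h)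
  · rintro ⟨c, rfl⟩
    push_cast
    exact v.asIdeal.mul_mem_right _ hpv

/-- `v(z - θ)` is a square: `B q = F₀` and `q = F₁ - k B`, where `F₀ = f(z) = p^(2m) u`, `p ∤ u`, `F₁ = f'(z)`. -/
theorem sub_isSquare (v : HeightOneSpectrum R) [CharZero R] (p : ℕ) (hp : p.Prime)
    (hpv : (p : R) ∈ v.asIdeal) (B q k : R) (F₀ F₁ u : ℤ) (m : ℕ) (hF₀ : F₀ = (p : ℤ) ^ (2 * m) * u)
    (hu : ¬ (p : ℤ) ∣ u) (hR : (p : ℤ) ^ 2 ∣ F₀ → ¬ (p : ℤ) ∣ F₁)
    (h1 : B * q = (F₀ : R)) (h2 : q = (F₁ : R) - k * B) : ∃ γ, v.intValuation B = γ ^ 2 := by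
  by_cases hB : B ∈ v.asIdeal
  · have h3 : ((F₀ : ℤ) : R) ∈ v.asIdeal := by
      rw [← h1]
      exact v.asIdeal.mul_mem_right _ hB
    have h4 : (p : ℤ) ∣ F₀ := (int_mem_iff v p hp hpv F₀).mp h3
    have hm : m ≠ 0 := by
      rintro rfl
      rw [mul_zero, pow_zero, one_mul] at hF₀
      exact hu (hF₀ ▸ h4)
    have h5 : (p : ℤ) ^ 2 ∣ F₀ := by
      rw [hF₀]
      exact (pow_dvd_pow _ (by omega)).trans (dvd_mul_right _ _)
    have h6 : ¬ (p : ℤ) ∣ F₁ := hR h5
    have hq : q ∉ v.asIdeal := by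
      intro hq
      apply h6
      rw [← int_mem_iff v p hp hpv]
      have : (F₁ : R) = q + k * B := by rw [h2]; ring
      rw [this]
      exact v.asIdeal.add_mem hq (v.asIdeal.mul_mem_left _ hB)
    have hvq : v.intValuation q = 1 := by
      rw [HeightOneSpectrum.intValuation_eq_one_iff]
      exact hq
    have hvu : v.intValuation (u : R) = 1 := by
      rw [HeightOneSpectrum.intValuation_eq_one_iff, int_mem_iff v p hp hpv]
      exact hu
    refine ⟨v.intValuation (p : R) ^ m, ?_⟩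
    have h7 := congrArg v.intValuation h1
    rw [map_mul, hvq, mul_one, hF₀] at h7
    push_cast at h7
    rw [map_mul, map_pow, hvu, mul_one] at h7
    rw [h7, ← pow_mul, mul_comm]
  · refine ⟨1, ?_⟩
    rw [one_pow, HeightOneSpectrum.intValuation_eq_one_iff]
    exact hB

/-- values of integers: `v(p^(2m) u) = v(p)^(2m)` for `p ∤ u` -/
theorem val_int (v : HeightOneSpectrum R) [CharZero R] (p : ℕ) (hp : p.Prime)
    (hpv : (p : R) ∈ v.asIdeal) (u : ℤ) (m : ℕ) (hu : ¬ (p : ℤ) ∣ u) :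
    v.intValuation (((p : ℤ) ^ m * u : ℤ) : R) = v.intValuation (p : R) ^ m := by
  have hvu : v.intValuation (u : R) = 1 := by
    rw [HeightOneSpectrum.intValuation_eq_one_iff, int_mem_iff v p hp hpv]
    exact hu
  push_cast
  rw [map_mul, map_pow, hvu, mul_one]

/-- `v(p)^n ≤ v(A)` for some `n`. -/
theorem exists_pow_le (v : HeightOneSpectrum R) (P A : R) (hPv : P ∈ v.asIdeal) (hA : A ≠ 0) :
    ∃ n : ℕ, v.intValuation P ^ n ≤ v.intValuation A := by
  have h1 : v.intValuation P ≤ WithZero.exp (-((1 : ℕ) : ℤ)) := by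
    rw [HeightOneSpectrum.intValuation_le_pow_iff_mem, pow_one]
    exact hPv
  refine ⟨multiplicity v.asIdeal (Ideal.span {A}), ?_⟩
  rw [HeightOneSpectrum.intValuation_eq_exp_neg_multiplicity v hA]
  refine (pow_le_pow_left₀ zero_le h1 _).trans (le_of_eq ?_)
  rw [← WithZero.exp_nsmul]
  simp

/-- A square value means an even multiplicity. -/
theorem even_of_square (v : HeightOneSpectrum R) (A : R) (hA : A ≠ 0)
    (h : ∃ γ, v.intValuation A = γ ^ 2) : Even (multiplicity v.asIdeal (Ideal.span {A})) := by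
  obtain ⟨γ, hγ⟩ := h
  rw [HeightOneSpectrum.intValuation_eq_exp_neg_multiplicity v hA] at hγ
  have hγ0 : γ ≠ 0 := by
    rintro rfl
    rw [zero_pow two_ne_zero] at hγ
    exact WithZero.exp_ne_zero hγ
  obtain ⟨m, rfl⟩ : ∃ m : ℤ, γ = WithZero.exp m := ⟨WithZero.log γ, (WithZero.exp_log hγ0).symm⟩
  rw [← WithZero.exp_nsmul, WithZero.exp_inj] at hγ
  rw [← Int.even_coe_nat]
  refine ⟨-m, ?_⟩
  simp at hγ
  omega

end Pool.Agent.Helper12.CV
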