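import Pool.Agent.Helper12.CV.NGlue
import Pool.Agent.Helper12.CV.Bound
import Pool.Agent.Helper36.HD.TransT

/-!
# CV: the curves theorem from the points theorem (T)
-/

set_option autoImplicit false

open Polynomial NumberField

namespace Pool.Agent.Helper12.CV

/-- The points theorem (T) for one `d` and one `n`. -/
def PointsBound (d n : ℕ) : Prop :=
  ∃ C₁ C₂ : ℝ, ∀ f : ℤ[X], f.natDegree = d → (f.map (Int.castRingHom ℚ)).Separable →
    ∀ (K : Type) [Field K] [NumberField K], Module.finrank ℚ K = n →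
    ∀ (x : ℤ) (g : K[X]),
      f.map (Int.castRingHom K) ∣ C ((f.leadingCoeff : ℤ) : K) * (C (x : K) - X) - g ^ 2 →
      Real.log (max |(x : ℝ)| 1) ≤
        C₁ * Real.log (max ((f.support.sup (fun i => (f.coeff i).natAbs) : ℕ) : ℝ) 1) + C₂

theorem pointsBound (d n : ℕ) (hn : ¬ 2 ^ (d - 1) ∣ n) : PointsBound d n := by
  obtain ⟨C₁, C₂, h⟩ := Pool.Agent.Helper36.HD.transT d n hn
  refine ⟨C₁, C₂, fun f hf hsep K _ _ hK x g hg => ?_⟩
  exact h f hf hsep x K hK ⟨g, (dvd_sub_comm).mp hg⟩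

theorem coeff_le_sup (f : ℤ[X]) (i : ℕ) :
    |((f.coeff i : ℤ) : ℝ)| ≤ ((f.support.sup (fun i => (f.coeff i).natAbs) : ℕ) : ℝ) := by
  by_cases h : f.coeff i = 0
  · rw [h]; simp
  · have h1 : (f.coeff i).natAbs ≤ f.support.sup (fun i => (f.coeff i).natAbs) :=
      Finset.le_sup (f := fun i => (f.coeff i).natAbs) (mem_support_iff.mpr h)
    have h2 : ((f.coeff i).natAbs : ℝ) = |((f.coeff i : ℤ) : ℝ)| := by
      rw [Nat.cast_natAbs, Int.cast_abs]
    rw [← h2]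
    exact_mod_cast h1

/-- A large integral point gives an integral Selmer class. -/
theorem integralSelmer_of_point (f : ℤ[X]) (hf : f ≠ 0) (x y : ℤ) (hxy : y ^ 2 = f.eval x)
    (hy : y ≠ 0)
    (hpos : ∀ r : ℝ, aeval r f = 0 → 0 < (f.leadingCoeff : ℝ) * ((x : ℝ) - r)) :
    IntegralSelmer f (C (f.leadingCoeff : ℚ) * (C (x : ℚ) - X)) := by
  have ha : (f.leadingCoeff : ℚ) ≠ 0 := by exact_mod_cast leadingCoeff_ne_zero.mpr hf
  refine ⟨?_, fun r hr => ?_, fun p _ => ⟨x, y, by exact_mod_cast hy, ?_, ?_⟩⟩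
  · have h1 : IsCoprime (X - C (x : ℚ)) (f.map (Int.castRingHom ℚ)) := by
      rw [(irreducible_X_sub_C (x : ℚ)).coprime_iff_not_dvd, dvd_iff_isRoot, IsRoot.def]
      have e : (f.map (Int.castRingHom ℚ)).eval (x : ℚ) = ((f.eval x : ℤ) : ℚ) := by simp
      rw [e, ← hxy]
      exact_mod_cast pow_ne_zero 2 hy
    have e : C (f.leadingCoeff : ℚ) * (C (x : ℚ) - X) = C (-(f.leadingCoeff : ℚ)) * (X - C (x : ℚ)) := by
      rw [C_neg]
      ring
    rw [e]
    have hu : IsUnit (C (-(f.leadingCoeff : ℚ))) := by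
      rw [isUnit_C]
      exact (neg_ne_zero.mpr ha).isUnit
    exact (isCoprime_mul_unit_left_left hu _ _).mpr h1
  · have := hpos r hr
    simpa using this
  · have h1 : aeval ((x : ℤ) : ℤ_[p]) f = ((f.eval x : ℤ) : ℤ_[p]) := by
      rw [aeval_def, eval₂_eq_eval_map]
      simp
    rw [h1, ← hxy]
    push_cast
    rfl
  · refine ⟨C ((f.leadingCoeff : ℤ) : ℚ_[p]) * (C ((x : ℤ) : ℚ_[p]) - X), ?_⟩
    have : C ((f.leadingCoeff : ℤ) : ℚ_[p]) * (C (((x : ℤ) : ℤ_[p]) : ℚ_[p]) - X) *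
        (C (f.leadingCoeff : ℚ) * (C (x : ℚ) - X)).map (algebraMap ℚ ℚ_[p])
        - (C ((f.leadingCoeff : ℤ) : ℚ_[p]) * (C ((x : ℤ) : ℚ_[p]) - X)) ^ 2 = 0 := by
      have hC : ∀ m : ℤ, (C (m : ℚ)).map (algebraMap ℚ ℚ_[p]) = C ((m : ℤ) : ℚ_[p]) :=
        fun m => by rw [Polynomial.map_C, map_intCast]
      rw [Polynomial.map_mul, Polynomial.map_sub, map_X, hC, hC, PadicInt.coe_intCast]
      ring
    rw [pointClass, this]
    exact dvd_zero _

theorem curves (d : ℕ) (hd : 3 ≤ d) (hodd : Odd d) :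
    ∃ C₁ C₂ : ℝ, ∀ f : ℤ[X], f.natDegree = d → (f.map (Int.castRingHom ℚ)).Separable →
      SelmerThin f →
      ∀ x y : ℤ, y ^ 2 = f.eval x →
        Real.log (max |(x : ℝ)| 1) ≤
          C₁ * Real.log (max ((f.support.sup (fun i => (f.coeff i).natAbs) : ℕ) : ℝ) 1) + C₂ := by
  classical
  -- one pair of constants for all `n` in `[1, 2^(d-1))`
  have hT' : ∃ D₁ D₂ : ℝ, 0 ≤ D₁ ∧ 0 ≤ D₂ ∧ ∀ n : ℕ, 0 < n → n < 2 ^ (d - 1) →
      ∀ f : ℤ[X], f.natDegree = d → (f.map (Int.castRingHom ℚ)).Separable →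
      ∀ (K : Type) [Field K] [NumberField K], Module.finrank ℚ K = n →
      ∀ (x : ℤ) (g : K[X]),
        f.map (Int.castRingHom K) ∣ C ((f.leadingCoeff : ℤ) : K) * (C (x : K) - X) - g ^ 2 →
        Real.log (max |(x : ℝ)| 1) ≤
          D₁ * Real.log (max ((f.support.sup (fun i => (f.coeff i).natAbs) : ℕ) : ℝ) 1) + D₂ := by
    have hn : ∀ n : ℕ, 0 < n ∧ n < 2 ^ (d - 1) → PointsBound d n := by
      rintro n ⟨h0, h1⟩
      exact pointsBound d n (Nat.not_dvd_of_pos_of_lt h0 h1)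
    choose! c₁ c₂ hc using hn
    refine ⟨∑ n ∈ Finset.range (2 ^ (d - 1)), |c₁ n|, ∑ n ∈ Finset.range (2 ^ (d - 1)), |c₂ n|,
      Finset.sum_nonneg fun _ _ => abs_nonneg _, Finset.sum_nonneg fun _ _ => abs_nonneg _, ?_⟩
    intro n h0 h1 f hf hsep K _ _ hK x g hg
    refine (hc n ⟨h0, h1⟩ f hf hsep K hK x g hg).trans ?_
    have hL : 0 ≤ Real.log (max ((f.support.sup (fun i => (f.coeff i).natAbs) : ℕ) : ℝ) 1) :=
      Real.log_nonneg (le_max_right _ _)
    have e1 : c₁ n ≤ ∑ n ∈ Finset.range (2 ^ (d - 1)), |c₁ n| :=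
      (le_abs_self _).trans (Finset.single_le_sum (f := fun n => |c₁ n|)
        (fun _ _ => abs_nonneg _) (Finset.mem_range.mpr h1))
    have e2 : c₂ n ≤ ∑ n ∈ Finset.range (2 ^ (d - 1)), |c₂ n| :=
      (le_abs_self _).trans (Finset.single_le_sum (f := fun n => |c₂ n|)
        (fun _ _ => abs_nonneg _) (Finset.mem_range.mpr h1))
    exact add_le_add (mul_le_mul_of_nonneg_right e1 hL) e2
  obtain ⟨D₁, D₂, hD₁, hD₂, hD⟩ := hT'
  refine ⟨D₁ + 1, D₂ + Real.log 2, fun f hf hsep hS x y hxy => ?_⟩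
  have hf0 : f ≠ 0 := by
    rintro rfl
    rw [natDegree_zero] at hf
    omega
  set M : ℝ := ((f.support.sup (fun i => (f.coeff i).natAbs) : ℕ) : ℝ) with hM
  have hM0 : 0 ≤ M := Nat.cast_nonneg _
  have hL : 0 ≤ Real.log (max M 1) := Real.log_nonneg (le_max_right _ _)
  have hlog2 : 0 ≤ Real.log 2 := Real.log_nonneg (by norm_num)
  by_cases hx : 1 + M < |(x : ℝ)|
  · obtain ⟨hy, hpos⟩ := sign_at_point f hf0 (hf ▸ hodd) M (coeff_le_sup f) x y hxy hx
    have key : Real.log (max |(x : ℝ)| 1) ≤ D₁ * Real.log (max M 1) + D₂ := by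
      obtain ⟨K, _, _, hKn, g, hg⟩ := hS _ (integralSelmer_of_point f hf0 x y hxy hy hpos)
      refine hD (Module.finrank ℚ K) Module.finrank_pos (hf ▸ hKn) f hf hsep K rfl x g ?_
      have e : (C (f.leadingCoeff : ℚ) * (C (x : ℚ) - X)).map (algebraMap ℚ K)
          = C ((f.leadingCoeff : ℤ) : K) * (C (x : K) - X) := by
        simp
      rw [e] at hg
      exact hg
    calc Real.log (max |(x : ℝ)| 1) ≤ D₁ * Real.log (max M 1) + D₂ := key
      _ ≤ (D₁ + 1) * Real.log (max M 1) + (D₂ + Real.log 2) := by nlinarith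
  · push Not at hx
    have h1 : max |(x : ℝ)| 1 ≤ 2 * max M 1 := by
      apply max_le
      · calc |(x : ℝ)| ≤ 1 + M := hx
          _ ≤ max M 1 + max M 1 := add_le_add (le_max_right _ _) (le_max_left _ _)
          _ = 2 * max M 1 := by ring
      · have := le_max_right M 1
        linarith
    calc Real.log (max |(x : ℝ)| 1) ≤ Real.log (2 * max M 1) :=
          Real.log_le_log (by positivity) h1
      _ = Real.log 2 + Real.log (max M 1) :=
          Real.log_mul (by norm_num) (by positivity)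
      _ ≤ (D₁ + 1) * Real.log (max M 1) + (D₂ + Real.log 2) := by nlinarith [mul_nonneg hD₁ hL]

end Pool.Agent.Helper12.CV
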