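import Pool.Agent.Helper12.CV.Defs

/-!
# CV: number fields of odd class number whose totally positive units are squares

If `A ∈ 𝓞 K` is positive at all real embeddings and the ideal `(A)` is a square, then `A` is a square
in `K`: `(A) = I²`, `I` is principal since the class number is odd, `A = ε β²`, and the unit `ε` is
totally positive, so a square.
-/

set_option autoImplicit false

open Polynomial NumberField

namespace Pool.Agent.Helper12.CV

open Classical in
/-- A nonzero ideal with even multiplicities is a square. -/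
theorem ideal_isSquare {K : Type} [Field K] [NumberField K] (J : Ideal (𝓞 K)) (hJ : J ≠ 0)
    (h : ∀ P : Ideal (𝓞 K), P ∈ UniqueFactorizationMonoid.normalizedFactors J →
        Even ((UniqueFactorizationMonoid.normalizedFactors J).count P)) :
    ∃ b : Ideal (𝓞 K), J = b ^ 2 := by
  set nf := UniqueFactorizationMonoid.normalizedFactors J with hnf
  have hprod : J = nf.prod := by
    have := UniqueFactorizationMonoid.prod_normalizedFactors hJ
    exact (associated_iff_eq.mp this).symm
  refine ⟨∏ P ∈ nf.toFinset, P ^ (nf.count P / 2), ?_⟩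
  conv_lhs => rw [hprod, Finset.prod_multiset_count]
  rw [← Finset.prod_pow]
  refine Finset.prod_congr rfl fun P hP => ?_
  rw [← pow_mul]
  congr 1
  obtain ⟨k, hk⟩ := h P (Multiset.mem_toFinset.mp hP)
  omega

/-- The global step. -/
theorem isSquare_of_ideal {K : Type} [Field K] [NumberField K] (A : 𝓞 K) (I : Ideal (𝓞 K))
    (hI : Ideal.span {A} = I ^ 2) (hcl : Odd (classNumber K))
    (hu : ∀ u : (𝓞 K)ˣ, (∀ φ : K →+* ℝ, 0 < φ ((u : 𝓞 K) : K)) → IsSquare u)
    (hpos : ∀ φ : K →+* ℝ, 0 < φ ((A : 𝓞 K) : K)) :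
    ∃ β : K, (A : K) = β ^ 2 := by
  have hIp : I.IsPrincipal := by
    have h2 : (I ^ 2).IsPrincipal := ⟨⟨A, by rw [← hI]⟩⟩
    refine Ideal.IsPrincipal.of_isPrincipal_pow_of_coprime (n := 2) ?_ h2
    rw [Nat.coprime_two_left]
    exact hcl
  obtain ⟨b, hb⟩ := hIp
  have hb' : I = Ideal.span {b} := hb
  have hassoc : Associated (b ^ 2) A := by
    rw [← Ideal.span_singleton_eq_span_singleton, ← Ideal.span_singleton_pow, ← hb', hI]
  obtain ⟨u, hu1⟩ := hassoc
  have hupos : ∀ φ : K →+* ℝ, 0 < φ ((u : 𝓞 K) : K) := by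
    intro φ
    have h1 := hpos φ
    rw [← hu1] at h1
    simp only [map_mul, map_pow] at h1
    have h2 : φ ((b : 𝓞 K) : K) ^ 2 * φ (((u : 𝓞 K)) : K) > 0 := h1
    have h3 : 0 ≤ φ ((b : 𝓞 K) : K) ^ 2 := sq_nonneg _
    by_contra hneg
    push Not at hneg
    nlinarith [mul_nonpos_of_nonneg_of_nonpos h3 hneg]
  obtain ⟨v, hv⟩ := hu u hupos
  refine ⟨((b * v : 𝓞 K) : K), ?_⟩
  have h1 : (A : 𝓞 K) = (b * v) ^ 2 := by
    rw [← hu1, hv]
    push_cast
    ring
  have h2 := congrArg (algebraMap (𝓞 K) K) h1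
  rw [map_pow] at h2
  exact h2

end Pool.Agent.Helper12.CV
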