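import Pool.Agent.Helper12.CV.NS

/-!
# CV: `OddNarrow f` implies `SelmerThin f`
-/

set_option autoImplicit false

open Polynomial NumberField

namespace Pool.Agent.Helper12.CV

/-- Squares modulo the irreducible factors give a square modulo a separable polynomial. -/
theorem sq_mod (P D : ℚ[X]) (hsep : P.Separable)
    (hirr : ∀ g : ℚ[X], Irreducible g → g ∣ P → ∃ z : ℚ[X], g ∣ D - z ^ 2) :
    ∃ z : ℚ[X], P ∣ D - z ^ 2 := by
  suffices H : ∀ h : ℚ[X], h ∣ P → ∃ z : ℚ[X], h ∣ D - z ^ 2 from H _ dvd_rfl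
  intro h
  induction h using WfDvdMonoid.induction_on_irreducible with
  | zero =>
    intro h0
    exact absurd (zero_dvd_iff.mp h0) hsep.ne_zero
  | unit u hu =>
    intro _
    exact ⟨0, hu.dvd⟩
  | mul a i ha hi ih =>
    intro hd
    have hi' : i ∣ P := (dvd_mul_right i a).trans hd
    have ha' : a ∣ P := (dvd_mul_left a i).trans hd
    obtain ⟨z₁, hz₁⟩ := hirr i hi hi'
    obtain ⟨z₂, hz₂⟩ := ih ha'
    have hcop : IsCoprime i a := (hsep.of_dvd hd).isCoprime
    obtain ⟨s, t, hst⟩ := hcop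
    refine ⟨z₁ * (t * a) + z₂ * (s * i), ?_⟩
    apply IsCoprime.mul_dvd ⟨s, t, hst⟩
    · have e : D - (z₁ * (t * a) + z₂ * (s * i)) ^ 2
          = (D - z₁ ^ 2) - i * (2 * z₁ * (s * (z₂ - z₁)) + i * (s * (z₂ - z₁)) ^ 2) := by
        have h1 : t * a = 1 - s * i := by linear_combination hst
        rw [h1]
        ring
      rw [e]
      exact dvd_sub hz₁ (dvd_mul_right _ _)
    · have e : D - (z₁ * (t * a) + z₂ * (s * i)) ^ 2
          = (D - z₂ ^ 2) - a * (2 * z₂ * (t * (z₁ - z₂)) + a * (t * (z₁ - z₂)) ^ 2) := by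
        have h1 : s * i = 1 - t * a := by linear_combination hst
        rw [h1]
        ring
      rw [e]
      exact dvd_sub hz₂ (dvd_mul_right _ _)

/-- A positive integer multiple `b² D` with integer coefficients. -/
theorem clear_denominators (D : ℚ[X]) :
    ∃ (b : ℤ) (Δ : ℤ[X]), b ≠ 0 ∧ Δ.map (Int.castRingHom ℚ) = C ((b : ℚ) ^ 2) * D := by
  obtain ⟨b, hb, h⟩ := IsLocalization.integerNormalization_spec (nonZeroDivisors ℤ) D
  have hb0 : b ≠ 0 := nonZeroDivisors.ne_zero hb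
  refine ⟨b, C b * IsLocalization.integerNormalization (nonZeroDivisors ℤ) D, hb0, ?_⟩
  have e : algebraMap ℤ ℚ = Int.castRingHom ℚ := RingHom.ext_int _ _
  rw [e] at h
  rw [Polynomial.map_mul, Polynomial.map_C, h, eq_intCast, pow_two, C_mul, mul_assoc]
  congr 1
  rw [zsmul_eq_mul]
  simp

/-- For an irreducible `g ∣ f`, an integral Selmer class `D` of `f` is a square modulo `g`. -/
theorem sq_mod_irreducible (f : ℤ[X]) (hN : OddNarrow f) (D : ℚ[X]) (hD : IntegralSelmer f D)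
    (g : ℚ[X]) (hg : Irreducible g) (hgf : g ∣ f.map (Int.castRingHom ℚ)) :
    ∃ z : ℚ[X], g ∣ D - z ^ 2 := by
  have : Fact (Irreducible g) := ⟨hg⟩
  have : CharZero (AdjoinRoot g) := algebraRat.charZero _
  have : FiniteDimensional ℚ (AdjoinRoot g) := (AdjoinRoot.powerBasis hg.ne_zero).finite
  have : NumberField (AdjoinRoot g) := ⟨⟩
  obtain ⟨hm, hR, hK⟩ := hN
  obtain ⟨hcop, hreal, hloc⟩ := hD
  obtain ⟨b, Δ, hb, hΔ⟩ := clear_denominators D
  have h0 : ∀ P : ℚ[X], AdjoinRoot.mk g P = eval₂ (AdjoinRoot.of g) (AdjoinRoot.root g) P :=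
    fun P => (AdjoinRoot.aeval_eq P).symm
  have h0' : ∀ P : ℤ[X], aeval (AdjoinRoot.root g) P = AdjoinRoot.mk g (P.map (Int.castRingHom ℚ)) := by
    intro P
    rw [h0, eval₂_map, aeval_def]
    congr 1
  have hθ : aeval (AdjoinRoot.root g) f = 0 := by
    obtain ⟨h, hh⟩ := hgf
    rw [h0', hh, map_mul, AdjoinRoot.mk_self, zero_mul]
  have htop : IntermediateField.adjoin ℚ {AdjoinRoot.root g} = ⊤ :=
    IntermediateField.adjoin_eq_top_of_algebra ℚ _ (AdjoinRoot.adjoinRoot_eq_top)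
  obtain ⟨hcl, hu⟩ := hK (AdjoinRoot g) (AdjoinRoot.root g) hθ htop
  have hθi : IsIntegral ℤ (AdjoinRoot.root g) := ⟨f, hm, by simpa [aeval_def] using hθ⟩
  let t : 𝓞 (AdjoinRoot g) := ⟨AdjoinRoot.root g, hθi⟩
  have hcoe : ∀ P : ℤ[X], ((aeval t P : 𝓞 (AdjoinRoot g)) : AdjoinRoot g)
      = aeval (AdjoinRoot.root g) P := by
    intro P
    change algebraMap (𝓞 (AdjoinRoot g)) (AdjoinRoot g) (aeval t P) = _
    rw [← aeval_algebraMap_apply]
    rfl
  have ht : aeval t f = 0 := RingOfIntegers.coe_eq_zero_iff.mp ((hcoe f).trans hθ)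
  have hΔK : aeval (AdjoinRoot.root g) Δ = (b : AdjoinRoot g) ^ 2 * AdjoinRoot.mk g D := by
    rw [h0', hΔ, map_mul]
    simp
  have hDK : AdjoinRoot.mk g D ≠ 0 := by
    intro hz
    obtain ⟨u, v, huv⟩ := hcop
    obtain ⟨h, hh⟩ := hgf
    have h1 := congrArg (AdjoinRoot.mk g) huv
    rw [map_add, map_mul, map_mul, hz, hh, map_mul, AdjoinRoot.mk_self] at h1
    simp at h1
  have hbK : (b : AdjoinRoot g) ≠ 0 := by exact_mod_cast hb
  have hΔ0 : (aeval t Δ : 𝓞 (AdjoinRoot g)) ≠ 0 := by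
    intro hz
    have h1 := hcoe Δ
    rw [hz, hΔK] at h1
    exact (mul_ne_zero (pow_ne_zero 2 hbK) hDK) h1.symm
  have hlc : f.leadingCoeff = 1 := hm
  obtain ⟨β, hβ⟩ := aeval_isSquare f Δ hm t ht hΔ0 hR (by
      intro p _
      obtain ⟨z, w, hw, hzw, G, hG⟩ := hloc p
      refine ⟨z, w, hw, hzw, C (b : ℚ_[p]) * G, ?_⟩
      have e1 : Δ.map (Int.castRingHom ℚ_[p]) = C ((b : ℚ_[p]) ^ 2) * D.map (algebraMap ℚ ℚ_[p]) := by
        have e2 : Δ.map (Int.castRingHom ℚ_[p])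
            = (Δ.map (Int.castRingHom ℚ)).map (algebraMap ℚ ℚ_[p]) := by
          rw [Polynomial.map_map]
          congr 1
        rw [e2, hΔ, Polynomial.map_mul, Polynomial.map_C, map_pow, map_intCast]
      rw [pointClass, hlc, Int.cast_one, map_one, one_mul] at hG
      have e3 : (C (z : ℚ_[p]) - X) * Δ.map (Int.castRingHom ℚ_[p]) - (C (b : ℚ_[p]) * G) ^ 2
          = C ((b : ℚ_[p]) ^ 2) * ((C (z : ℚ_[p]) - X) * D.map (algebraMap ℚ ℚ_[p]) - G ^ 2) := by
        rw [e1, C_pow]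
        ring
      rw [e3]
      exact hG.mul_left _) hcl hu (by
      intro φ
      rw [hcoe, hΔK]
      have h1 : φ (AdjoinRoot.mk g D) = aeval (φ (AdjoinRoot.root g)) D := by
        rw [h0, hom_eval₂, aeval_def]
        congr 1
        exact RingHom.ext_rat _ _
      have h2 : aeval (φ (AdjoinRoot.root g)) f = 0 := by
        have : aeval (φ (AdjoinRoot.root g)) f = φ (aeval (AdjoinRoot.root g) f) := by
          rw [aeval_def, aeval_def, hom_eval₂]
          congr 1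
          exact RingHom.ext_int _ _
        rw [this, hθ, map_zero]
      rw [map_mul, map_pow, map_intCast, h1]
      have hbR : (b : ℝ) ≠ 0 := by exact_mod_cast hb
      exact mul_pos (by positivity) (hreal _ h2))
  rw [hcoe, hΔK] at hβ
  obtain ⟨z, hz⟩ := AdjoinRoot.mk_surjective (β / (b : AdjoinRoot g))
  refine ⟨z, ?_⟩
  rw [← AdjoinRoot.mk_eq_mk (f := g), map_pow, hz, div_pow, ← hβ]
  field_simp

theorem selmerThin_of_oddNarrow (f : ℤ[X]) (hd : 2 ≤ f.natDegree)
    (hsep : (f.map (Int.castRingHom ℚ)).Separable) (hN : OddNarrow f) : SelmerThin f := by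
  intro D hD
  obtain ⟨z, hz⟩ := sq_mod (f.map (Int.castRingHom ℚ)) D hsep
    (fun g hg hgf => sq_mod_irreducible f hN D hD g hg hgf)
  refine ⟨ℚ, inferInstance, inferInstance, ?_, z, ?_⟩
  · rw [Module.finrank_self]
    exact Nat.one_lt_two_pow (by omega)
  · have e : ∀ φ : ℚ →+* ℚ, D.map φ = D := fun φ => by
      rw [Subsingleton.elim φ (RingHom.id ℚ), Polynomial.map_id]
    rw [e]
    exact hz

end Pool.Agent.Helper12.CV
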