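import Pool.Agent.Helper12.CV.NField
import Pool.Agent.Helper12.CV.Local
import Pool.Agent.Helper12.CV.Lift

/-!
# CV: an integral Selmer class has even valuations, for `f` in the family `OddNarrow`
-/

set_option autoImplicit false

open Polynomial NumberField IsDedekindDomain

namespace Pool.Agent.Helper12.CV

/-- an integer close to `z`: `f(z₀) = p^(2m) u` -/
theorem eval_close (p : ℕ) [Fact p.Prime] (f : ℤ[X]) (z w : ℤ_[p]) (hw : w ≠ 0)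
    (hzw : w ^ 2 = aeval z f) (N : ℕ) (hN : 2 * w.valuation < N) (z₀ : ℤ)
    (hz₀ : z - (z₀ : ℤ_[p]) ∈ Ideal.span {((p : ℤ_[p])) ^ N}) :
    ∃ u : ℤ, f.eval z₀ = (p : ℤ) ^ (2 * w.valuation) * u ∧ ¬ (p : ℤ) ∣ u := by
  set m := w.valuation with hm
  have hp : (p : ℤ_[p]) ≠ 0 := by exact_mod_cast (Fact.out : p.Prime).ne_zero
  have h1 : ((f.eval z₀ : ℤ) : ℤ_[p]) = aeval (z₀ : ℤ_[p]) f := by
    rw [aeval_def, eval₂_eq_eval_map]
    simp
  have h2 : (p : ℤ_[p]) ^ N ∣ aeval z f - aeval (z₀ : ℤ_[p]) f := by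
    rw [Ideal.mem_span_singleton] at hz₀
    refine hz₀.trans ?_
    rw [aeval_def, aeval_def, eval₂_eq_eval_map, eval₂_eq_eval_map]
    exact sub_dvd_eval_sub _ _ _
  have hwu : w = (PadicInt.unitCoeff hw : ℤ_[p]) * (p : ℤ_[p]) ^ m := PadicInt.unitCoeff_spec hw
  set U : (ℤ_[p])ˣ := PadicInt.unitCoeff hw with hU
  have h3 : aeval z f = (U : ℤ_[p]) ^ 2 * (p : ℤ_[p]) ^ (2 * m) := by
    rw [← hzw, hwu, mul_pow, ← pow_mul, mul_comm m 2]
  obtain ⟨c, hc⟩ := h2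
  have h4 : ((f.eval z₀ : ℤ) : ℤ_[p]) =
      (p : ℤ_[p]) ^ (2 * m) * ((U : ℤ_[p]) ^ 2 - (p : ℤ_[p]) ^ (N - 2 * m) * c) := by
    have e : (p : ℤ_[p]) ^ N = (p : ℤ_[p]) ^ (2 * m) * (p : ℤ_[p]) ^ (N - 2 * m) := by
      rw [← pow_add]
      congr 1
      omega
    rw [h1]
    rw [e, h3] at hc
    linear_combination -hc
  have h5 : ((p : ℤ) ^ (2 * m)) ∣ f.eval z₀ := by
    have : (p : ℤ_[p]) ^ (2 * m) ∣ ((f.eval z₀ : ℤ) : ℤ_[p]) := ⟨_, h4⟩
    rw [PadicInt.pow_p_dvd_int_iff] at this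
    exact_mod_cast this
  obtain ⟨u, hu⟩ := h5
  refine ⟨u, hu, ?_⟩
  rintro ⟨u', rfl⟩
  have h6 : (p : ℤ_[p]) ∣ (U : ℤ_[p]) ^ 2 := by
    have h7 : ((f.eval z₀ : ℤ) : ℤ_[p]) = (p : ℤ_[p]) ^ (2 * m) * ((p : ℤ_[p]) * (u' : ℤ_[p])) := by
      rw [hu]
      push_cast
      ring
    rw [h7] at h4
    have h8 := mul_left_cancel₀ (pow_ne_zero _ hp) h4
    have h9 : (U : ℤ_[p]) ^ 2 = (p : ℤ_[p]) * ((u' : ℤ_[p]) + (p : ℤ_[p]) ^ (N - 2 * m - 1) * c) := by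
      have e : (p : ℤ_[p]) ^ (N - 2 * m) = (p : ℤ_[p]) * (p : ℤ_[p]) ^ (N - 2 * m - 1) := by
        rw [← pow_succ']
        congr 1
        omega
      rw [e] at h8
      linear_combination -h8
    exact ⟨_, h9⟩
  have h10 : IsUnit (p : ℤ_[p]) := isUnit_of_dvd_unit h6 (U.isUnit.pow 2)
  exact PadicInt.prime_p.not_isUnit h10

/-- The valuation of `Δ(θ)` at every prime is a square. -/
theorem valuation_isSquare {K : Type} [Field K] [NumberField K] (f Δ : ℤ[X]) (hm : f.Monic)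
    (t : 𝓞 K) (ht : aeval t f = 0) (hΔ : aeval t Δ ≠ 0)
    (hR : ∀ (p : ℕ) (m : ℤ), p.Prime → ((p : ℤ) ^ 2 ∣ f.eval m) → ¬ ((p : ℤ) ∣ f.derivative.eval m))
    (hloc : ∀ (p : ℕ) [Fact p.Prime], ∃ z w : ℤ_[p], w ≠ 0 ∧ w ^ 2 = aeval z f ∧
      ∃ G : ℚ_[p][X], f.map (Int.castRingHom ℚ_[p]) ∣
        (C (z : ℚ_[p]) - X) * Δ.map (Int.castRingHom ℚ_[p]) - G ^ 2)
    (v : HeightOneSpectrum (𝓞 K)) : ∃ γ, v.intValuation (aeval t Δ) = γ ^ 2 := by
  -- the prime number below `v`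
  have hne : NeZero v.asIdeal := ⟨v.ne_bot⟩
  have hvp := v.isPrime
  set p : ℕ := Ideal.absNorm (Ideal.under ℤ v.asIdeal) with hpdef
  have hp : p.Prime := Nat.absNorm_under_prime v.asIdeal
  have hpv : ((p : ℕ) : 𝓞 K) ∈ v.asIdeal := by
    have := Int.absNorm_under_mem v.asIdeal
    exact this
  clear_value p
  have : Fact p.Prime := ⟨hp⟩
  obtain ⟨z, w, hw, hzw, G, hG⟩ := hloc p
  obtain ⟨k, hk⟩ := lift_data p f Δ hm z G hG
  set A : 𝓞 K := aeval t Δ with hA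
  obtain ⟨n, hn⟩ := exists_pow_le v (p : 𝓞 K) A hpv hΔ
  set m := w.valuation with hmdef
  obtain ⟨z₀, G₀, H₀, E₀, hz₀, hid⟩ := hk (2 * k + 2 * m + n + 1)
  obtain ⟨u, hu1, hu2⟩ := eval_close p f z w hw hzw _ (by omega) z₀ hz₀
  -- Taylor at `z₀`
  let F : (𝓞 K)[X] := f.map (Int.castRingHom (𝓞 K))
  have hF : F.eval t = 0 := by
    have : F.eval t = aeval t f := by
      simp only [F, eval_map, aeval_def]
      rfl
    rw [this, ht]
  have hFx : F.eval (z₀ : 𝓞 K) = ((f.eval z₀ : ℤ) : 𝓞 K) := by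
    simp [F]
  have hF'x : F.derivative.eval (z₀ : 𝓞 K) = ((f.derivative.eval z₀ : ℤ) : 𝓞 K) := by
    simp [F, derivative_map]
  obtain ⟨c, hc⟩ := binomExpansion F (z₀ : 𝓞 K) (t - z₀)
  rw [add_sub_cancel, hF, hFx, hF'x] at hc
  set B : 𝓞 K := (z₀ : 𝓞 K) - t with hB
  set q : 𝓞 K := ((f.derivative.eval z₀ : ℤ) : 𝓞 K) - c * B with hq
  have hBq : B * q = ((f.eval z₀ : ℤ) : 𝓞 K) := by
    rw [hq, hB]
    linear_combination hc
  have hf0 : f.eval z₀ ≠ 0 := by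
    rw [hu1]
    refine mul_ne_zero (pow_ne_zero _ (by exact_mod_cast hp.ne_zero)) ?_
    rintro rfl
    exact hu2 (dvd_zero _)
  have hB0 : B ≠ 0 := by
    intro h0
    rw [h0, zero_mul] at hBq
    exact hf0 (by exact_mod_cast hBq.symm)
  have hBsq : ∃ γ, v.intValuation B = γ ^ 2 :=
    sub_isSquare v p hp hpv B q c (f.eval z₀) (f.derivative.eval z₀) u m hu1 hu2
      (fun h => hR p z₀ hp h) hBq hq
  -- the identity in `𝓞 K`
  have hid' : ((p : ℕ) : 𝓞 K) ^ (2 * k) * B * A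
      = (aeval t G₀) ^ 2 + ((p : ℕ) : 𝓞 K) ^ (2 * k + 2 * m + n + 1) * aeval t E₀ := by
    have h1 := congrArg (aeval t) hid
    simp only [map_mul, map_add, map_pow, map_sub, aeval_X, ht, zero_mul, add_zero] at h1
    rw [← hA] at h1
    simp only [eq_intCast, map_natCast, map_intCast] at h1
    rw [hB]
    exact h1
  have hp0 : ((p : ℕ) : 𝓞 K) ≠ 0 := by exact_mod_cast hp.ne_zero
  refine local_isSquare v (p : 𝓞 K) A B (aeval t G₀) (aeval t E₀) k _ hp0 hB0 hid' ?_ hBsq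
  -- the size of `N`
  have hvp0 : v.intValuation (p : 𝓞 K) ≠ 0 := v.intValuation_ne_zero _ hp0
  have hvp1 : v.intValuation (p : 𝓞 K) < 1 := (v.intValuation_lt_one_iff_mem _).mpr hpv
  have hvB : v.intValuation (p : 𝓞 K) ^ (2 * m) ≤ v.intValuation B := by
    have h1 : v.intValuation (p : 𝓞 K) ^ (2 * m) = v.intValuation B * v.intValuation q := by
      rw [← map_mul, hBq, hu1, val_int v p hp hpv u (2 * m) hu2]
    rw [h1]
    exact mul_le_of_le_one_right' (v.intValuation_le_one q)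
  rw [map_mul, map_mul, map_pow, map_pow]
  have h2 : v.intValuation (p : 𝓞 K) ^ (2 * k + 2 * m + n) ≤
      v.intValuation (p : 𝓞 K) ^ (2 * k) * v.intValuation B * v.intValuation A := by
    rw [pow_add, pow_add]
    exact mul_le_mul' (mul_le_mul' le_rfl hvB) hn
  refine lt_of_lt_of_le ?_ h2
  exact pow_lt_pow_right_of_lt_one₀ (zero_lt_iff.mpr hvp0) hvp1 (by omega)

/-- `Δ(θ)` is a square in `K`. -/
theorem aeval_isSquare {K : Type} [Field K] [NumberField K] (f Δ : ℤ[X]) (hm : f.Monic)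
    (t : 𝓞 K) (ht : aeval t f = 0) (hΔ : aeval t Δ ≠ 0)
    (hR : ∀ (p : ℕ) (m : ℤ), p.Prime → ((p : ℤ) ^ 2 ∣ f.eval m) → ¬ ((p : ℤ) ∣ f.derivative.eval m))
    (hloc : ∀ (p : ℕ) [Fact p.Prime], ∃ z w : ℤ_[p], w ≠ 0 ∧ w ^ 2 = aeval z f ∧
      ∃ G : ℚ_[p][X], f.map (Int.castRingHom ℚ_[p]) ∣
        (C (z : ℚ_[p]) - X) * Δ.map (Int.castRingHom ℚ_[p]) - G ^ 2)
    (hcl : Odd (classNumber K))
    (hu : ∀ u : (𝓞 K)ˣ, (∀ φ : K →+* ℝ, 0 < φ ((u : 𝓞 K) : K)) → IsSquare u)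
    (hpos : ∀ φ : K →+* ℝ, 0 < φ ((aeval t Δ : 𝓞 K) : K)) :
    ∃ β : K, ((aeval t Δ : 𝓞 K) : K) = β ^ 2 := by
  have hspan : Ideal.span {(aeval t Δ : 𝓞 K)} ≠ 0 := by
    simpa [Ideal.zero_eq_bot, Ideal.span_singleton_eq_bot] using hΔ
  obtain ⟨I, hI⟩ := ideal_isSquare (Ideal.span {(aeval t Δ : 𝓞 K)}) hspan (by
    intro P hP
    have hprime := UniqueFactorizationMonoid.prime_of_normalized_factor P hP
    let v : HeightOneSpectrum (𝓞 K) := ⟨P, Ideal.isPrime_of_prime hprime, hprime.ne_zero⟩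
    have h1 := even_of_square v _ hΔ (valuation_isSquare f Δ hm t ht hΔ hR hloc v)
    have h2 : Multiset.count v.asIdeal (UniqueFactorizationMonoid.normalizedFactors
        (Ideal.span {(aeval t Δ : 𝓞 K)})) = multiplicity v.asIdeal (Ideal.span {(aeval t Δ : 𝓞 K)}) :=
      HeightOneSpectrum.count_normalizedFactors_eq_multiplicity hspan v
    rw [← h2] at h1
    convert h1)
  exact isSquare_of_ideal _ I hI hcl hu hpos

end Pool.Agent.Helper12.CV
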